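import Pool.Agent.Lib.MP_588841_co.Design

/-!
MP_588841_co, Q1: the complete list of pairs `(v, lam)` for which a `VB(v, 3, lam)` design
without repeated blocks exists.
-/

set_option autoImplicit false

namespace Pool.Agent.Results.MP_588841_co.NoRepeatedBlocks

open Pool.Agent.Lib.MP_588841_co

/-- For `v ≥ 2` and `lam ≥ 1`, a `VB(v, 3, lam)` design without repeated blocks exists exactly
when `lam ≤ v + 2`, `lam (v - 1)` is even and, if `lam` is `1` or `v + 1`, `v ≡ 1, 3 (mod 6)`. -/
theorem result (v lam : ℕ) (hv : 2 ≤ v) (_hl : 1 ≤ lam) :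
    (∃ D : List (Multiset (Fin v)), IsVB v lam D ∧ D.Nodup) ↔
      lam ≤ v + 2 ∧ Even (lam * (v - 1)) ∧
        (lam = 1 ∨ lam = v + 1 → v % 6 = 1 ∨ v % 6 = 3) := by
  rw [← good_iff v lam hv]
  constructor
  · rintro ⟨D, hD, hnd⟩
    exact good_of_design lam D hD hnd
  · intro h
    exact design_of_good lam h

end Pool.Agent.Results.MP_588841_co.NoRepeatedBlocks
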